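import Mathlib

set_option autoImplicit false

/-!
The sum of the signs of a quadratic form over `ZMod 2` without linear terms.
-/

namespace Pool.Agent.TH484.GC

open Finset

/-- the sign `(-1)^z` -/
def sg (z : ZMod 2) : ℤ := if z = 0 then 1 else -1

lemma sg_add : ∀ a b : ZMod 2, sg (a + b) = sg a * sg b := by decide

lemma sg_le : ∀ a : ZMod 2, sg a ≤ 1 := by decide

lemma neg_le_sg : ∀ a : ZMod 2, -1 ≤ sg a := by decide

lemma fourid : ∀ p pi pj pij : ZMod 2, p + pi + pj + pij = 1 →
    sg p + sg pi + sg pj + sg pij = 2 * sg (p + (p + pi) * (p + pj)) := by decide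

lemma c2 : ∀ x y z : ZMod 2, x + y = z → y = x + z := by decide

lemma c3 : ∀ a b c d : ZMod 2, a + (b + a) + c + d = 0 → d = b + c := by decide

lemma polar : ∀ a b e1 f1 e2 f2 : ZMod 2,
    a * b + (a + e1) * (b + f1) + (a + e2) * (b + f2) + (a + e2 + e1) * (b + f2 + f1)
      = e2 * f1 + e1 * f2 := by decide

variable {V : Type} [DecidableEq V]

/-- `P` has the constant mixed second differences `ε i j` on the subsets of `W` -/
def QuadOn (W : Finset V) (P : Finset V → ZMod 2) (ε : V → V → ZMod 2) : Prop :=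
  ∀ i ∈ W, ∀ j ∈ W, i ≠ j → ∀ x, x ⊆ W → i ∉ x → j ∉ x →
    P x + P (insert i x) + P (insert j x) + P (insert i (insert j x)) = ε i j

lemma split2 (W : Finset V) {i j : V} (hi : i ∈ W) (hj : j ∈ W) (hij : i ≠ j)
    (φ : Finset V → ℤ) : ∑ x ∈ W.powerset, φ x = ∑ x ∈ ((W.erase i).erase j).powerset,
      (φ x + φ (insert i x) + φ (insert j x) + φ (insert i (insert j x))) := by
  have hj' : j ∈ W.erase i := mem_erase.2 ⟨hij.symm, hj⟩
  conv_lhs => rw [← insert_erase hi]
  rw [sum_powerset_insert (notMem_erase i W)]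
  conv_lhs => rw [← insert_erase hj']
  rw [sum_powerset_insert (notMem_erase j _), sum_powerset_insert (notMem_erase j _),
    ← sum_add_distrib, ← sum_add_distrib, ← sum_add_distrib]
  refine sum_congr rfl fun x _ => ?_
  ring

/-- the reduced function -/
def red (P : Finset V → ZMod 2) (i j : V) (x : Finset V) : ZMod 2 :=
  P x + (P x + P (insert i x)) * (P x + P (insert j x))

lemma sum_red {W : Finset V} {P : Finset V → ZMod 2} {ε : V → V → ZMod 2} (h : QuadOn W P ε)
    {i j : V} (hi : i ∈ W) (hj : j ∈ W) (hij : i ≠ j) (hε : ε i j = 1) :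
    ∑ x ∈ W.powerset, sg (P x) = 2 * ∑ x ∈ ((W.erase i).erase j).powerset, sg (red P i j x) := by
  rw [split2 W hi hj hij, mul_sum]
  refine sum_congr rfl fun x hx => ?_
  rw [mem_powerset] at hx
  have h1 : x ⊆ W := hx.trans ((erase_subset _ _).trans (erase_subset _ _))
  have h2 : i ∉ x := fun hix => by
    have := mem_erase.1 (mem_erase.1 (hx hix)).2
    exact this.1 rfl
  have h3 : j ∉ x := fun hjx => (mem_erase.1 (hx hjx)).1 rfl
  have h4 := h i hi j hj hij x h1 h2 h3
  rw [hε] at h4
  exact fourid _ _ _ _ h4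

lemma card_erase2 {W : Finset V} {i j : V} (hi : i ∈ W) (hj : j ∈ W) (hij : i ≠ j) :
    ((W.erase i).erase j).card + 2 = W.card := by
  have hj' : j ∈ W.erase i := mem_erase.2 ⟨hij.symm, hj⟩
  have h1 := card_erase_add_one hi
  have h2 := card_erase_add_one hj'
  omega

lemma abs_sum_le (W : Finset V) (P : Finset V → ZMod 2) :
    |∑ x ∈ W.powerset, sg (P x)| ≤ 2 ^ W.card := by
  rw [abs_le]
  have h1 : ∑ _x ∈ W.powerset, (1 : ℤ) = 2 ^ W.card := by
    rw [sum_const, card_powerset, nsmul_eq_mul, mul_one]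
    push_cast
    rfl
  constructor
  · rw [← h1, ← sum_neg_distrib]
    exact sum_le_sum fun x _ => neg_le_sg _
  · rw [← h1]
    exact sum_le_sum fun x _ => sg_le _

lemma half {W : Finset V} {P : Finset V → ZMod 2} {ε : V → V → ZMod 2} (h : QuadOn W P ε)
    {i j : V} (hi : i ∈ W) (hj : j ∈ W) (hij : i ≠ j) (hε : ε i j = 1) :
    2 * |∑ x ∈ W.powerset, sg (P x)| ≤ 2 ^ W.card := by
  rw [sum_red h hi hj hij hε, ← card_erase2 hi hj hij, abs_mul, pow_add]
  have := abs_sum_le ((W.erase i).erase j) (red P i j)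
  have h2 : |(2 : ℤ)| = 2 := rfl
  rw [h2]
  linarith

lemma linear {W : Finset V} {P : Finset V → ZMod 2} {ε : V → V → ZMod 2} (h : QuadOn W P ε)
    (hε : ∀ i ∈ W, ∀ j ∈ W, i ≠ j → ε i j = 0) (h0 : P ∅ = 0) :
    0 ≤ ∑ x ∈ W.powerset, sg (P x) := by
  have key : ∀ k ∈ W, ∀ x : Finset V, x ⊆ W → k ∉ x → P (insert k x) = P {k} + P x := by
    intro k hk x
    induction x using Finset.induction_on with
    | empty =>
      intro _ _
      rw [h0, add_zero]
      rfl
    | insert l y hl ih =>
      intro hx hkx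
      rw [mem_insert, not_or] at hkx
      have hy : y ⊆ W := (subset_insert l y).trans hx
      have hlW : l ∈ W := hx (mem_insert_self l y)
      have h1 := h k hk l hlW hkx.1 y hy hkx.2 hl
      rw [hε k hk l hlW hkx.1, ih hy hkx.2] at h1
      exact c3 _ _ _ _ h1
  by_cases hex : ∃ k ∈ W, P {k} = 1
  · obtain ⟨k, hk, hk1⟩ := hex
    rw [← insert_erase hk, sum_powerset_insert (notMem_erase k W), ← sum_add_distrib]
    refine le_of_eq (sum_eq_zero fun x hx => ?_).symm
    rw [mem_powerset] at hx
    have h1 : k ∉ x := fun hkx => (mem_erase.1 (hx hkx)).1 rfl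
    rw [key k hk x (hx.trans (erase_subset _ _)) h1, hk1, sg_add]
    have : sg 1 = -1 := rfl
    rw [this]
    ring
  · push Not at hex
    have hz : ∀ k ∈ W, P {k} = 0 := by
      intro k hk
      have h1 := hex k hk
      have h2 : ∀ z : ZMod 2, z ≠ 1 → z = 0 := by decide
      exact h2 _ h1
    have hall : ∀ x : Finset V, x ⊆ W → P x = 0 := by
      intro x
      induction x using Finset.induction_on with
      | empty => exact fun _ => h0
      | insert l y hl ih =>
        intro hx
        have hy : y ⊆ W := (subset_insert l y).trans hx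
        have hlW : l ∈ W := hx (mem_insert_self l y)
        rw [key l hlW y hy hl, hz l hlW, ih hy, add_zero]
    refine sum_nonneg fun x hx => ?_
    rw [hall x (mem_powerset.1 hx)]
    decide

lemma quad_red {W : Finset V} {P : Finset V → ZMod 2} {ε : V → V → ZMod 2} (h : QuadOn W P ε)
    {i j : V} (hi : i ∈ W) (hj : j ∈ W) :
    QuadOn ((W.erase i).erase j) (red P i j)
      (fun k l => ε k l + (ε i l * ε j k + ε i k * ε j l)) := by
  intro k hk l hl hkl x hx hkx hlx
  have hk' := mem_erase.1 hk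
  have hk'' := mem_erase.1 hk'.2
  have hl' := mem_erase.1 hl
  have hl'' := mem_erase.1 hl'.2
  have hxW : x ⊆ W := hx.trans ((erase_subset _ _).trans (erase_subset _ _))
  have hix : i ∉ x := fun hix => by
    have := mem_erase.1 (mem_erase.1 (hx hix)).2
    exact this.1 rfl
  have hjx : j ∉ x := fun hjx => (mem_erase.1 (hx hjx)).1 rfl
  have hlxW : insert l x ⊆ W := insert_subset hl''.2 hxW
  have hil : i ∉ insert l x := by
    rw [mem_insert, not_or]
    exact ⟨hl''.1.symm, hix⟩
  have hjl : j ∉ insert l x := by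
    rw [mem_insert, not_or]
    exact ⟨hl'.1.symm, hjx⟩
  have hkl' : k ∉ insert l x := by
    rw [mem_insert, not_or]
    exact ⟨hkl, hkx⟩
  have r1 := h i hi k hk''.2 hk''.1.symm x hxW hix hkx
  have r2 := h j hj k hk''.2 hk'.1.symm x hxW hjx hkx
  have r3 := h i hi l hl''.2 hl''.1.symm x hxW hix hlx
  have r4 := h j hj l hl''.2 hl'.1.symm x hxW hjx hlx
  have r5 := h i hi k hk''.2 hk''.1.symm (insert l x) hlxW hil hkl'
  have r6 := h j hj k hk''.2 hk'.1.symm (insert l x) hlxW hjl hkl'
  have r7 := h k hk''.2 l hl''.2 hkl x hxW hkx hlx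
  show red P i j x + red P i j (insert k x) + red P i j (insert l x) +
    red P i j (insert k (insert l x)) = ε k l + (ε i l * ε j k + ε i k * ε j l)
  unfold red
  generalize P x = p at *
  generalize P (insert i x) = pi at *
  generalize P (insert j x) = pj at *
  generalize P (insert k x) = pk at *
  generalize P (insert l x) = pl at *
  generalize P (insert i (insert k x)) = pik at *
  generalize P (insert j (insert k x)) = pjk at *
  generalize P (insert i (insert l x)) = pil at *
  generalize P (insert j (insert l x)) = pjl at *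
  generalize P (insert k (insert l x)) = pkl at *
  generalize P (insert i (insert k (insert l x))) = pikl at *
  generalize P (insert j (insert k (insert l x))) = pjkl at *
  have s1 : pk + pik = (p + pi) + ε i k := c2 _ _ _ (by rw [← r1]; ring)
  have s2 : pk + pjk = (p + pj) + ε j k := c2 _ _ _ (by rw [← r2]; ring)
  have s3 : pl + pil = (p + pi) + ε i l := c2 _ _ _ (by rw [← r3]; ring)
  have s4 : pl + pjl = (p + pj) + ε j l := c2 _ _ _ (by rw [← r4]; ring)
  have s5 : pkl + pikl = (pl + pil) + ε i k := c2 _ _ _ (by rw [← r5]; ring)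
  have s6 : pkl + pjkl = (pl + pjl) + ε j k := c2 _ _ _ (by rw [← r6]; ring)
  rw [s5, s6, s1, s2, s3, s4]
  have s7 := polar (p + pi) (p + pj) (ε i k) (ε j k) (ε i l) (ε j l)
  rw [← s7, ← r7]
  ring

/-- the bias of a quadratic form without linear terms is at least `-1/4` -/
theorem bias {W : Finset V} {P : Finset V → ZMod 2} {ε : V → V → ZMod 2} (h : QuadOn W P ε)
    (h0 : P ∅ = 0) (h1 : ∀ i, P {i} = 0) :
    -(2 : ℤ) ^ W.card ≤ 4 * ∑ x ∈ W.powerset, sg (P x) := by
  have hpos : (0 : ℤ) < 2 ^ W.card := by positivity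
  have hz : ∀ z : ZMod 2, z ≠ 1 → z = 0 := by decide
  by_cases hex : ∃ i ∈ W, ∃ j ∈ W, i ≠ j ∧ ε i j = 1
  · obtain ⟨i, hi, j, hj, hij, hε⟩ := hex
    rw [sum_red h hi hj hij hε]
    have h2 := quad_red h hi hj
    have hr0 : red P i j ∅ = 0 := by
      unfold red
      rw [h0]
      have : (insert i ∅ : Finset V) = {i} := rfl
      rw [this, h1 i]
      simp
    by_cases hex2 : ∃ k ∈ (W.erase i).erase j, ∃ l ∈ (W.erase i).erase j, k ≠ l ∧
        ε k l + (ε i l * ε j k + ε i k * ε j l) = 1
    · obtain ⟨k, hk, l, hl, hkl, hε2⟩ := hex2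
      have h3 := half h2 hk hl hkl hε2
      have h4 := card_erase2 hi hj hij
      have h5 : (2 : ℤ) ^ W.card = 4 * 2 ^ ((W.erase i).erase j).card := by
        rw [← h4, pow_add]
        ring
      have h6 := neg_abs_le (∑ x ∈ ((W.erase i).erase j).powerset, sg (red P i j x))
      rw [h5]
      linarith
    · push Not at hex2
      have h3 := linear h2 (fun k hk l hl hkl => hz _ (hex2 k hk l hl hkl)) hr0
      linarith
  · push Not at hex
    have h3 := linear h (fun i hi j hj hij => hz _ (hex i hi j hj hij)) h0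
    linarith

end Pool.Agent.TH484.GC
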