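import Mathlib
import Pool.Agent.TH484.GC.Bias

set_option autoImplicit false

/-!
Families of graphs without two members which differ by a clique.
-/

namespace Pool.Agent.TH484.GC

open Finset

section fourier

variable {E : Type} [DecidableEq E]

/-- the pairing -/
def L (c A : Finset E) : ZMod 2 := ∑ e ∈ c, if e ∈ A then 1 else 0

lemma L_symm (c A B : Finset E) : L c (symmDiff A B) = L c A + L c B := by
  unfold L
  rw [← sum_add_distrib]
  refine sum_congr rfl fun e _ => ?_
  simp only [mem_symmDiff]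
  have h3 : (0 : ZMod 2) = 1 + 1 := by decide
  by_cases h1 : e ∈ A <;> by_cases h2 : e ∈ B <;> simp only [h1, h2, not_true_eq_false,
    not_false_eq_true, and_true, and_false, or_true, or_false, or_self, false_and, true_and,
    if_true, if_false, add_zero, zero_add, and_self] <;> exact h3

lemma L_empty (c : Finset E) : L c ∅ = 0 := by
  unfold L
  exact sum_eq_zero fun e _ => if_neg (notMem_empty e)

lemma sum_L [Fintype E] (D : Finset E) :
    ∑ c : Finset E, sg (L c D) = if D = ∅ then (2 : ℤ) ^ Fintype.card E else 0 := by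
  by_cases hD : D = ∅
  · rw [if_pos hD, hD]
    have h1 : ∀ c ∈ (univ : Finset (Finset E)), sg (L c ∅) = 1 := fun c _ => by
      rw [L_empty]
      rfl
    rw [sum_congr rfl h1, sum_const, card_univ, Fintype.card_finset, nsmul_eq_mul, mul_one]
    push_cast
    rfl
  · rw [if_neg hD]
    obtain ⟨e, he⟩ := nonempty_iff_ne_empty.2 hD
    rw [← powerset_univ, ← insert_erase (mem_univ e), sum_powerset_insert (notMem_erase e _),
      ← sum_add_distrib]
    refine sum_eq_zero fun c hc => ?_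
    rw [mem_powerset] at hc
    have h1 : e ∉ c := fun h => (mem_erase.1 (hc h)).1 rfl
    have h2 : L (insert e c) D = 1 + L c D := by
      unfold L
      rw [sum_insert h1, if_pos he]
    rw [h2, sg_add]
    have : sg 1 = -1 := rfl
    rw [this]
    ring

/-- the weighted Hoffman bound -/
lemma hoffman [Fintype E] {ι : Type} [Fintype ι] (K : ι → Finset E) (N m : ℤ) (hN : 0 < N)
    (hNc : (Fintype.card ι : ℤ) = N) (hK0 : ((univ.filter (fun U => K U = ∅)).card : ℤ) ≤ m)
    (hb : ∀ c : Finset E, -N ≤ 4 * ∑ U, sg (L c (K U)))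
    (𝒜 : Finset (Finset E)) (h : ∀ A ∈ 𝒜, ∀ B ∈ 𝒜, A ≠ B → ∀ U, symmDiff A B ≠ K U) :
    5 * N * (𝒜.card : ℤ) ≤ (2 : ℤ) ^ Fintype.card E * (4 * m + N) := by
  obtain ⟨Q, hQ⟩ : ∃ Q : ℤ, Q = (2 : ℤ) ^ Fintype.card E := ⟨_, rfl⟩
  have hQ0 : 0 < Q := by rw [hQ]; positivity
  obtain ⟨T, hT⟩ : ∃ T : ℤ, T = (𝒜.card : ℤ) := ⟨_, rfl⟩
  obtain ⟨S, hS⟩ : ∃ S : Finset E → ℤ, S = fun c => ∑ A ∈ 𝒜, sg (L c A) := ⟨_, rfl⟩
  obtain ⟨B, hB⟩ : ∃ B : Finset E → ℤ, B = fun c => ∑ U, sg (L c (K U)) := ⟨_, rfl⟩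
  have hS2 : ∀ c, S c ^ 2 = ∑ A ∈ 𝒜, ∑ A' ∈ 𝒜, sg (L c (symmDiff A A')) := by
    intro c
    rw [hS, sq]
    simp only
    rw [sum_mul_sum]
    refine sum_congr rfl fun A _ => sum_congr rfl fun A' _ => ?_
    rw [L_symm, sg_add]
  have e1 : ∑ c, S c ^ 2 = T * Q := by
    rw [sum_congr rfl fun c _ => hS2 c, sum_comm]
    have h1 : ∀ A ∈ 𝒜, ∑ c : Finset E, ∑ A' ∈ 𝒜, sg (L c (symmDiff A A')) = Q := by
      intro A hA
      rw [sum_comm]
      have h2 : ∀ A' ∈ 𝒜, ∑ c : Finset E, sg (L c (symmDiff A A')) = if A = A' then Q else 0 := by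
        intro A' _
        rw [sum_L, ← hQ]
        have h3 : symmDiff A A' = ∅ ↔ A = A' := by
          rw [← bot_eq_empty]
          exact symmDiff_eq_bot
        simp only [h3]
      rw [sum_congr rfl h2, sum_ite_eq, if_pos hA]
    rw [sum_congr rfl h1, sum_const, nsmul_eq_mul, hT]
  have e2 : ∑ c, B c * S c ^ 2 ≤ T * (m * Q) := by
    have h1 : ∀ c : Finset E, B c * S c ^ 2 = ∑ A ∈ 𝒜, ∑ U, ∑ A' ∈ 𝒜,
        sg (L c (symmDiff (symmDiff A A') (K U))) := by
      intro c
      rw [hS2, hB]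
      simp only
      rw [mul_comm, sum_mul]
      refine sum_congr rfl fun A _ => ?_
      rw [sum_mul_sum, sum_comm]
      refine sum_congr rfl fun U _ => sum_congr rfl fun A' _ => ?_
      rw [L_symm c (symmDiff A A') (K U), sg_add]
    rw [sum_congr rfl fun c _ => h1 c, sum_comm]
    have h2 : ∀ A ∈ 𝒜, ∑ c : Finset E, ∑ U, ∑ A' ∈ 𝒜,
        sg (L c (symmDiff (symmDiff A A') (K U))) ≤ m * Q := by
      intro A hA
      rw [sum_comm]
      have h3 : ∀ U ∈ (univ : Finset ι), ∑ c : Finset E, ∑ A' ∈ 𝒜,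
          sg (L c (symmDiff (symmDiff A A') (K U))) = if K U = ∅ then Q else 0 := by
        intro U _
        rw [sum_comm]
        have h4 : ∀ A' ∈ 𝒜, ∑ c : Finset E, sg (L c (symmDiff (symmDiff A A') (K U))) =
            if A = A' then (if K U = ∅ then Q else 0) else 0 := by
          intro A' hA'
          rw [sum_L, ← hQ]
          have h5 : symmDiff (symmDiff A A') (K U) = ∅ ↔ symmDiff A A' = K U := by
            rw [← bot_eq_empty]
            exact symmDiff_eq_bot
          simp only [h5]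
          by_cases h6 : A = A'
          · rw [if_pos h6, ← h6]
            have h7 : symmDiff A A = ∅ := by
              rw [← bot_eq_empty]
              exact symmDiff_self A
            rw [h7]
            simp only [eq_comm]
          · rw [if_neg h6, if_neg (h A hA A' hA' h6 U)]
        rw [sum_congr rfl h4, sum_ite_eq, if_pos hA]
      rw [sum_congr rfl h3, ← sum_filter, sum_const, nsmul_eq_mul]
      exact mul_le_mul_of_nonneg_right hK0 hQ0.le
    refine (sum_le_sum h2).trans (le_of_eq ?_)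
    rw [sum_const, nsmul_eq_mul, hT]
  have hS0 : S ∅ = T := by
    rw [hS, hT]
    have : ∀ A ∈ 𝒜, sg (L ∅ A) = 1 := fun A _ => rfl
    simp only
    rw [sum_congr rfl this, sum_const, nsmul_eq_mul, mul_one]
  have hB0 : B ∅ = N := by
    rw [hB, ← hNc]
    have : ∀ U ∈ (univ : Finset ι), sg (L ∅ (K U)) = 1 := fun U _ => rfl
    simp only
    rw [sum_congr rfl this, sum_const, nsmul_eq_mul, mul_one, card_univ]
  have e3 : 4 * (B ∅ * S ∅ ^ 2) + N * S ∅ ^ 2 ≤ ∑ c, (4 * (B c * S c ^ 2) + N * S c ^ 2) := by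
    refine single_le_sum (f := fun c => 4 * (B c * S c ^ 2) + N * S c ^ 2) (fun c _ => ?_)
      (mem_univ ∅)
    have h1 := hb c
    have h2 : 0 ≤ S c ^ 2 := sq_nonneg _
    have h3 : B c = ∑ U, sg (L c (K U)) := by rw [hB]
    rw [← h3] at h1
    show 0 ≤ 4 * (B c * S c ^ 2) + N * S c ^ 2
    nlinarith
  rw [hB0, hS0, sum_add_distrib, ← mul_sum, ← mul_sum, e1] at e3
  rw [← hT, ← hQ]
  have hT0 : 0 ≤ T := by rw [hT]; exact Nat.cast_nonneg _
  rcases hT0.eq_or_lt with h0 | h0
  · rw [← h0]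
    have hm : 0 ≤ m := le_trans (Nat.cast_nonneg _) hK0
    have : 0 ≤ Q * (4 * m + N) := by positivity
    linarith
  · have h4 : T * (5 * N * T) ≤ T * (Q * (4 * m + N)) := by nlinarith
    exact le_of_mul_le_mul_left h4 h0

end fourier

/-- the pairs -/
abbrev Pr (n : ℕ) : Type := {p : Fin n × Fin n // p.1 < p.2}

/-- the pairs inside `U` -/
def KK {n : ℕ} (U : Finset (Fin n)) : Finset (Pr n) :=
  univ.filter (fun p => p.1.1 ∈ U ∧ p.1.2 ∈ U)

lemma card_Pr (n : ℕ) : Fintype.card (Pr n) = n.choose 2 := by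
  have e : Pr n ≃ (Σ b : Fin n, Fin b) :=
    { toFun := fun p => ⟨p.1.2, ⟨p.1.1, p.2⟩⟩
      invFun := fun q => ⟨(⟨q.2, lt_trans q.2.2 q.1.2⟩, q.1), q.2.2⟩
      left_inv := fun p => rfl
      right_inv := fun q => rfl }
  rw [Fintype.card_congr e, Fintype.card_sigma]
  simp only [Fintype.card_fin]
  rw [Fin.sum_univ_eq_sum_range (fun i => i) n, sum_range_id, Nat.choose_two_right]

/-- indicator -/
def ind {n : ℕ} (U : Finset (Fin n)) (a : Fin n) : ZMod 2 := if a ∈ U then 1 else 0

lemma ind_insert {n : ℕ} {U : Finset (Fin n)} {i : Fin n} (hi : i ∉ U) (a : Fin n) :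
    ind (insert i U) a = ind U a + (if a = i then 1 else 0) := by
  unfold ind
  by_cases h : a = i
  · rw [if_pos h, h, if_pos (mem_insert_self i U), if_neg hi]
    rfl
  · rw [if_neg h, add_zero]
    simp only [mem_insert, h, false_or]

lemma L_KK {n : ℕ} (c : Finset (Pr n)) (U : Finset (Fin n)) :
    L c (KK U) = ∑ e ∈ c, ind U e.1.1 * ind U e.1.2 := by
  unfold L
  refine sum_congr rfl fun e _ => ?_
  unfold ind KK
  simp only [mem_filter, mem_univ, true_and]
  by_cases h1 : e.1.1 ∈ U <;> by_cases h2 : e.1.2 ∈ U <;> simp [h1, h2]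

lemma quad_KK {n : ℕ} (c : Finset (Pr n)) : QuadOn (univ : Finset (Fin n)) (fun U => L c (KK U))
    (fun i j => ∑ e ∈ c, ((if e.1.1 = j then 1 else 0) * (if e.1.2 = i then 1 else 0) +
      (if e.1.1 = i then 1 else 0) * (if e.1.2 = j then 1 else 0))) := by
  intro i _ j _ hij x _ hix hjx
  have hi' : i ∉ insert j x := by
    rw [mem_insert, not_or]
    exact ⟨hij, hix⟩
  show L c (KK x) + L c (KK (insert i x)) + L c (KK (insert j x)) +
    L c (KK (insert i (insert j x))) = _
  rw [L_KK, L_KK, L_KK, L_KK, ← sum_add_distrib, ← sum_add_distrib, ← sum_add_distrib]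
  refine sum_congr rfl fun e _ => ?_
  rw [ind_insert hix, ind_insert hix, ind_insert hi', ind_insert hi', ind_insert hjx,
    ind_insert hjx]
  exact polar _ _ _ _ _ _

lemma KK_empty {n : ℕ} : KK (∅ : Finset (Fin n)) = ∅ := by
  ext e
  unfold KK
  rw [mem_filter]
  constructor
  · rintro ⟨-, h, -⟩
    exact absurd h (notMem_empty _)
  · intro h
    exact absurd h (notMem_empty _)

lemma KK_single {n : ℕ} (i : Fin n) : KK ({i} : Finset (Fin n)) = ∅ := by
  ext e
  unfold KK
  rw [mem_filter]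
  constructor
  · rintro ⟨-, h1, h2⟩
    rw [mem_singleton] at h1 h2
    have := e.2
    rw [h1, h2] at this
    exact absurd this (lt_irrefl _)
  · intro h
    exact absurd h (notMem_empty _)

lemma card_KK_empty (n : ℕ) :
    ((univ.filter (fun U : Finset (Fin n) => KK U = ∅)).card : ℤ) ≤ n + 1 := by
  have h1 : univ.filter (fun U : Finset (Fin n) => KK U = ∅) ⊆
      insert ∅ (univ.image (fun i : Fin n => ({i} : Finset (Fin n)))) := by
    intro U hU
    rw [mem_filter] at hU
    rw [mem_insert, mem_image]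
    by_cases h2 : U = ∅
    · exact Or.inl h2
    · right
      obtain ⟨i, hi⟩ := nonempty_iff_ne_empty.2 h2
      refine ⟨i, mem_univ _, ?_⟩
      ext j
      rw [mem_singleton]
      constructor
      · intro hj
        rw [hj]
        exact hi
      · intro hj
        by_contra hne
        have key : ∀ a b : Fin n, a ∈ U → b ∈ U → ¬ a < b := by
          intro a b ha hb hab
          have : (⟨(a, b), hab⟩ : Pr n) ∈ KK U := by
            unfold KK
            rw [mem_filter]
            exact ⟨mem_univ _, ha, hb⟩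
          rw [hU.2] at this
          exact absurd this (notMem_empty _)
        rcases lt_trichotomy i j with h3 | h3 | h3
        · exact key i j hi hj h3
        · exact hne h3.symm
        · exact key j i hj hi h3
  have h2 := (card_le_card h1).trans (card_insert_le _ _)
  have h3 : (univ.image (fun i : Fin n => ({i} : Finset (Fin n)))).card ≤ n :=
    card_image_le.trans (by rw [card_univ, Fintype.card_fin])
  have h4 : (univ.filter (fun U : Finset (Fin n) => KK U = ∅)).card ≤ n + 1 := by omega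
  exact_mod_cast h4

theorem code (n : ℕ) (F : Finset (SimpleGraph (Fin n)))
    (hF : ∀ G ∈ F, ∀ H ∈ F, G ≠ H → ¬ ∃ U : Finset (Fin n), ∀ u v : Fin n,
      (symmDiff G H).Adj u v ↔ (u ≠ v ∧ u ∈ U ∧ v ∈ U)) :
    (F.card : ℝ) ≤ (1 / 5 + 4 / 5 * ((n + 1) / 2 ^ n)) * (2 : ℝ) ^ (n.choose 2) := by
  classical
  obtain ⟨enc, henc⟩ : ∃ enc : SimpleGraph (Fin n) → Finset (Pr n), enc = fun G =>
      univ.filter (fun p => G.Adj p.1.1 p.1.2) := ⟨_, rfl⟩
  have hmem : ∀ G (p : Pr n), p ∈ enc G ↔ G.Adj p.1.1 p.1.2 := by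
    intro G p
    rw [henc, mem_filter]
    exact ⟨fun h => h.2, fun h => ⟨mem_univ _, h⟩⟩
  have hinj : Function.Injective enc := by
    intro G H hGH
    have h1 : ∀ a b : Fin n, a < b → (G.Adj a b ↔ H.Adj a b) := by
      intro a b hab
      have h2 := hmem G ⟨(a, b), hab⟩
      have h3 := hmem H ⟨(a, b), hab⟩
      rw [hGH] at h2
      exact h2.symm.trans h3
    ext a b
    rcases lt_trichotomy a b with h | h | h
    · exact h1 a b h
    · rw [h]
      exact ⟨fun h' => absurd h' (G.loopless.irrefl b), fun h' => absurd h' (H.loopless.irrefl b)⟩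
    · rw [G.adj_comm, H.adj_comm]
      exact h1 b a h
  have hsd : ∀ G H, symmDiff (enc G) (enc H) = enc (symmDiff G H) := by
    intro G H
    ext p
    rw [mem_symmDiff, hmem, hmem, hmem]
    simp only [symmDiff, SimpleGraph.sup_adj, SimpleGraph.sdiff_adj]
  have hcode : ∀ A ∈ F.image enc, ∀ B ∈ F.image enc, A ≠ B → ∀ U, symmDiff A B ≠ KK U := by
    intro A hA B hB hAB U hU
    rw [mem_image] at hA hB
    obtain ⟨G, hG, rfl⟩ := hA
    obtain ⟨H, hH, rfl⟩ := hB
    refine hF G hG H hH (fun h => hAB (by rw [h])) ⟨U, ?_⟩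
    rw [hsd] at hU
    have h1 : ∀ a b : Fin n, a < b → ((symmDiff G H).Adj a b ↔ (a ∈ U ∧ b ∈ U)) := by
      intro a b hab
      have h2 := hmem (symmDiff G H) ⟨(a, b), hab⟩
      rw [hU] at h2
      rw [← h2]
      unfold KK
      rw [mem_filter]
      exact ⟨fun h => h.2, fun h => ⟨mem_univ _, h⟩⟩
    intro a b
    rcases lt_trichotomy a b with h | h | h
    · rw [h1 a b h]
      exact ⟨fun h' => ⟨h.ne, h'⟩, fun h' => h'.2⟩
    · rw [h]
      exact ⟨fun h' => absurd h' ((symmDiff G H).loopless.irrefl b), fun h' => absurd rfl h'.1⟩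
    · rw [(symmDiff G H).adj_comm, h1 b a h]
      exact ⟨fun h' => ⟨h.ne', h'.2, h'.1⟩, fun h' => ⟨h'.2.2, h'.2.1⟩⟩
  have hb : ∀ c : Finset (Pr n), -(2 : ℤ) ^ n ≤ 4 * ∑ U : Finset (Fin n), sg (L c (KK U)) := by
    intro c
    have := bias (quad_KK c) (by rw [KK_empty, L_empty]) (fun i => by rw [KK_single, L_empty])
    rw [card_univ, Fintype.card_fin, powerset_univ] at this
    exact this
  have hmain := hoffman (fun U : Finset (Fin n) => KK U) (2 ^ n) (n + 1) (by positivity)
    (by rw [Fintype.card_finset, Fintype.card_fin]; push_cast; rfl) (card_KK_empty n) hb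
    (F.image enc) hcode
  rw [card_image_of_injective _ hinj, card_Pr] at hmain
  have h2 : (5 : ℝ) * 2 ^ n * F.card ≤ 2 ^ (n.choose 2) * (4 * (n + 1) + 2 ^ n) := by
    exact_mod_cast hmain
  have h3 : (0 : ℝ) < 2 ^ n := by positivity
  have h4 : (1 / 5 + 4 / 5 * (((n : ℝ) + 1) / 2 ^ n)) * (2 : ℝ) ^ (n.choose 2) =
      2 ^ (n.choose 2) * (4 * (n + 1) + 2 ^ n) / (5 * 2 ^ n) := by
    field_simp
    ring
  rw [h4, le_div_iff₀ (by positivity)]
  linarith

end Pool.Agent.TH484.GC
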